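import Pool.Agent.K.MP_9e61a4_lc.C6

set_option autoImplicit false

namespace Pool.Agent.Results.MP_9e61a4_lc.ModCounting

open Pool.Agent.P.MP_9e61a4_lc

/-- For every `k ≥ 2` there is a language `L` in `Mod_k P` such that, with any oracle that decides
`L` in polynomial time (`L` itself is one), some canonical form of all graphs is computable in
polynomial time. -/
theorem result : ∀ k : ℕ, 2 ≤ k → ∃ L ∈ ModP k, PolyTimeIn L L ∧
    ∀ O : List Bool → Bool, PolyTimeIn O L →
      ∃ c, PolyTimeIn O c ∧ IsCanon (fun _ _ => True) c :=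
  fun _ hk => Cm.main_mod hk

end Pool.Agent.Results.MP_9e61a4_lc.ModCounting
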