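import Pool.Agent.K.MP_9e61a4_lc.C7

set_option autoImplicit false

namespace Pool.Agent.Results.MP_9e61a4_lc.NilpotentAut

open Pool.Agent.P.MP_9e61a4_lc

/-- For every oracle that decides graph isomorphism in polynomial time (the language `GI` is one),
some canonical form of all graphs is computable in polynomial time with the oracle if and only if
this holds for the graphs whose automorphism group has a normal Sylow 2-subgroup and is nilpotent
if solvable. -/
theorem result : SolvesGI GI ∧ ∀ O : List Bool → Bool, SolvesGI O →
    ((∃ c, PolyTimeIn O c ∧ IsCanon NilAut c) ↔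
      ∃ c, PolyTimeIn O c ∧ IsCanon (fun _ _ => True) c) :=
  ⟨solvesGI_GI, main⟩

end Pool.Agent.Results.MP_9e61a4_lc.NilpotentAut
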